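import Pool.Agent.helper41.HFE.SpecD
import Pool.Agent.helper39.HFE.RLZ

/-!
# Project HFE (MP_3221a1_ag), block D, row hfe:RZT: realization on the curve `x = y^b`
-/

set_option autoImplicit false

open Polynomial Module Pool.Agent.HFN

namespace Pool.Agent.HFE

noncomputable section

open Pool.Agent.helper29.JZ

/-- the `b`-th roots of unity -/
def RZT_z (b : ℕ) (s : Fin b) : ℂ := Complex.exp (2 * Real.pi * Complex.I / b) ^ (s : ℕ)

theorem RZT_zi {b : ℕ} (hb : 1 ≤ b) : Function.Injective (RZT_z b) := by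
  intro s s' e
  exact Fin.ext ((Complex.isPrimitiveRoot_exp b (by omega)).pow_inj s.2 s'.2 e)

theorem RZT_z1 {b : ℕ} (hb : 1 ≤ b) (s : Fin b) : RZT_z b s ^ b = 1 := by
  unfold RZT_z
  rw [← pow_mul, Nat.mul_comm (s : ℕ) b, pow_mul, (Complex.isPrimitiveRoot_exp b (by omega)).pow_eq_one, one_pow]

theorem RZT : RZT_stmt := by
  classical
  intro hgen h h' b M W hb hrow hcol
  obtain ⟨ζ, hζi, hζ1⟩ : ∃ ζ : Fin b → ℂ, Function.Injective ζ ∧ ∀ s, ζ s ^ b = 1 := ⟨RZT_z b, RZT_zi hb, RZT_z1 hb⟩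
  obtain ⟨t, ht0, htb, hG⟩ := hgen b hb ζ hζi hζ1 (h + h')
  have htb' : ∀ i j, t i ^ b = t j ^ b → i = j := fun i j e => htb e
  -- numbering
  have hnum : ∀ k : Fin h, ∃ f : Fin h' → Fin b, ∀ m m', (k, m) ∈ W → (k, m') ∈ W → f m = f m' → m = m' := by
    intro k
    obtain ⟨S, hS⟩ : ∃ S : Finset (Fin h'), ∀ m, m ∈ S ↔ (k, m) ∈ W := ⟨Finset.univ.filter (fun m => (k, m) ∈ W), fun m => by simp⟩
    have hc : Fintype.card S ≤ Fintype.card (Fin b) := by
      rw [Fintype.card_coe, Fintype.card_fin]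
      refine le_trans ?_ (hcol k)
      unfold col
      refine Finset.card_le_card_of_injOn (fun m => (k, m)) (fun m hm => ?_) (fun m _ m' _ e => (Prod.ext_iff.1 e).2)
      rw [Finset.mem_coe] at hm ⊢
      rw [Finset.mem_filter]
      exact ⟨(hS m).1 hm, rfl⟩
    obtain ⟨e⟩ := Function.Embedding.nonempty_of_card_le hc
    refine ⟨fun m => if hm : m ∈ S then e ⟨m, hm⟩ else ⟨0, hb⟩, fun m m' hm hm' heq => ?_⟩
    have h1 := (hS m).2 hm
    have h2 := (hS m').2 hm'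
    simp only [dif_pos h1, dif_pos h2] at heq
    exact congrArg Subtype.val (e.injective heq)
  choose f hf using hnum
  have huniq : ∀ k k' m, (k, m) ∈ W → (k', m) ∈ W → k = k' := by
    intro k k' m h1 h2
    have h3 := Finset.card_le_one.1 (hrow m) (k, m) (Finset.mem_filter.2 ⟨h1, rfl⟩) (k', m) (Finset.mem_filter.2 ⟨h2, rfl⟩)
    exact (Prod.ext_iff.1 h3).1
  obtain ⟨τ, hτ⟩ : ∃ τ : Fin h' → Fin (h + h') × Fin b, ∀ m, (∀ k, (k, m) ∈ W → τ m = (Fin.castAdd h' k, f k m)) ∧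
      ((¬ ∃ k, (k, m) ∈ W) → τ m = (Fin.natAdd h m, ⟨0, hb⟩)) := by
    refine ⟨fun m => if H : ∃ k, (k, m) ∈ W then (Fin.castAdd h' H.choose, f H.choose m) else (Fin.natAdd h m, ⟨0, hb⟩), fun m => ⟨fun k hk => ?_, fun H => ?_⟩⟩
    · have H : ∃ k, (k, m) ∈ W := ⟨k, hk⟩
      have h3 := huniq _ _ _ H.choose_spec hk
      exact (dif_pos H).trans (by rw [h3])
    · exact dif_neg H
  have hne : ∀ (k : Fin h) (m : Fin h'), Fin.castAdd h' k ≠ Fin.natAdd h m := by
    intro k m e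
    have e1 := congrArg Fin.val e
    rw [Fin.val_castAdd, Fin.val_natAdd] at e1
    have := k.2
    omega
  have hA : ∀ (k : Fin h) (m : Fin h'), Fin.castAdd h' k = (τ m).1 ↔ (k, m) ∈ W := by
    intro k m
    constructor
    · intro e
      by_cases H : ∃ k', (k', m) ∈ W
      · obtain ⟨k', hk'⟩ := H
        rw [(hτ m).1 k' hk'] at e
        rw [Fin.castAdd_injective h h' e]
        exact hk'
      · rw [(hτ m).2 H] at e
        exact absurd e (hne k m)
    · intro hk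
      rw [(hτ m).1 k hk]
  have hyb : ∀ m, (ζ (τ m).2 * t (τ m).1) ^ b = t (τ m).1 ^ b := by
    intro m
    rw [mul_pow, hζ1, one_mul]
  have hx : Function.Injective (fun k : Fin h => t (Fin.castAdd h' k) ^ b) := fun a c e => Fin.castAdd_injective h h' (htb' _ _ e)
  have hy : Function.Injective (fun m : Fin h' => ζ (τ m).2 * t (τ m).1) := by
    intro m m' e
    have e' : ζ (τ m).2 * t (τ m).1 = ζ (τ m').2 * t (τ m').1 := e
    have e1 : (τ m).1 = (τ m').1 := by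
      refine htb' _ _ ?_
      rw [← hyb m, ← hyb m', e']
    rw [e1] at e'
    have e2 : (τ m).2 = (τ m').2 := hζi (mul_right_cancel₀ (ht0 _) e')
    by_cases H : ∃ k, (k, m) ∈ W
    · obtain ⟨k, hk⟩ := H
      have hk' : (k, m') ∈ W := (hA k m').1 (((hA k m).2 hk).trans e1)
      rw [(hτ m).1 k hk, (hτ m').1 k hk'] at e2
      exact hf k m m' hk hk' e2
    · by_cases H' : ∃ k, (k, m') ∈ W
      · obtain ⟨k, hk⟩ := H'
        exact absurd ⟨k, (hA k m).1 (((hA k m').2 hk).trans e1.symm)⟩ H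
      · rw [(hτ m).2 H, (hτ m').2 H'] at e1
        exact Fin.natAdd_injective h' h e1
  refine ⟨fun k => t (Fin.castAdd h' k) ^ b, fun m => ζ (τ m).2 * t (τ m).1, hx, hy, fun k m => ?_, fun g hg hdx hdy hna => ?_⟩
  · show t (Fin.castAdd h' k) ^ b = (ζ (τ m).2 * t (τ m).1) ^ b ↔ (k, m) ∈ W
    rw [hyb]
    exact ⟨fun e => (hA k m).1 (htb' _ _ e), fun hk => by rw [(hA k m).2 hk]⟩
  · have hS : ∀ p : Fin h × Fin h', p ∈ M.filter (fun p => ev (t (Fin.castAdd h' p.1) ^ b, ζ (τ p.2).2 * t (τ p.2).1) g = 0) ↔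
        p ∈ M ∧ ev (t (Fin.castAdd h' p.1) ^ b, ζ (τ p.2).2 * t (τ p.2).1) g = 0 := fun p => Finset.mem_filter
    rw [RLZ_nn _ _ M hx hy g _ hS]
    have hinj : Function.Injective (fun p : Fin h × Fin h' => (Fin.castAdd h' p.1, (τ p.2).1, (τ p.2).2)) := by
      rintro ⟨a, c⟩ ⟨d, e⟩ hh
      simp only [Prod.mk.injEq] at hh
      have h1 : (fun m : Fin h' => ζ (τ m).2 * t (τ m).1) c = (fun m : Fin h' => ζ (τ m).2 * t (τ m).1) e := by
        simp only
        rw [hh.2.1, hh.2.2]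
      rw [Fin.castAdd_injective h h' hh.1, hy h1]
    rw [← Finset.card_image_of_injective _ hinj]
    refine hG g hg hdx hdy hna _ ?_
    intro q hq
    obtain ⟨p, hp, rfl⟩ := Finset.mem_image.1 hq
    exact (Finset.mem_filter.1 hp).2

end

end Pool.Agent.HFE
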